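import Pool.Agent.H365.TF.Stm

/-! FI: a group with a hyperlinear normal subgroup of finite index is hyperlinear
(for helper365, TF). -/

set_option autoImplicit false

namespace Pool.Agent.H365.TF

namespace FIaux

open Finset Matrix
open Pool.Agent.H21R2 (IsHyperlinear hsNorm)

/-- the sum of the squares of the absolute values of the entries -/
noncomputable def F {ι : Type} [Fintype ι] (X : Matrix ι ι ℂ) : ℝ :=
  ∑ i, ∑ j, Complex.normSq (X i j)

theorem hsNorm_eq {n : ℕ} (X : Matrix (Fin n) (Fin n) ℂ) :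
    hsNorm X = Real.sqrt (F X / n) := by
  have h : (trace (Xᴴ * X)).re = F X := by
    unfold F
    rw [Finset.sum_comm]
    simp only [Matrix.trace, Matrix.diag_apply, Matrix.mul_apply, Matrix.conjTranspose_apply,
      Complex.re_sum]
    refine Finset.sum_congr rfl fun j _ => Finset.sum_congr rfl fun i _ => ?_
    rw [Complex.normSq_apply]
    simp [Complex.mul_re]
  unfold hsNorm
  rw [h]

theorem F_reindex {ι κ : Type} [Fintype ι] [Fintype κ] (e : ι ≃ κ) (X : Matrix ι ι ℂ) :
    F (Matrix.reindex e e X) = F X :=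
  Fintype.sum_equiv e.symm _ _ (fun _ => Fintype.sum_equiv e.symm _ _ (fun _ => rfl))

theorem F_nonneg {ι : Type} [Fintype ι] (X : Matrix ι ι ℂ) : 0 ≤ F X :=
  Finset.sum_nonneg fun _ _ => Finset.sum_nonneg fun _ _ => Complex.normSq_nonneg _

section big

variable {X : Type} {n : ℕ}

/-- block monomial matrices -/
def big [DecidableEq X] (g : X → X) (M : X → Matrix (Fin n) (Fin n) ℂ) :
    Matrix (X × Fin n) (X × Fin n) ℂ :=
  fun p q => if p.1 = g q.1 then M q.1 p.2 q.2 else 0

theorem big_mul [Fintype X] [DecidableEq X] (g h : X → X) (M M' : X → Matrix (Fin n) (Fin n) ℂ) :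
    big g M * big h M' = big (fun y => g (h y)) (fun y => M (h y) * M' y) := by
  ext p q
  rw [Matrix.mul_apply, Fintype.sum_prod_type]
  rw [Finset.sum_eq_single (h q.1)]
  · by_cases hp : p.1 = g (h q.1)
    · simp [big, hp, Matrix.mul_apply]
    · simp [big, hp]
  · intro z _ hz
    apply Finset.sum_eq_zero
    intro k _
    simp [big, hz]
  · intro hz
    exact absurd (Finset.mem_univ _) hz

theorem big_one [DecidableEq X] :
    big (fun y : X => y) (fun _ => (1 : Matrix (Fin n) (Fin n) ℂ)) = 1 := by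
  ext p q
  obtain ⟨x, i⟩ := p
  obtain ⟨y, j⟩ := q
  unfold big
  by_cases h : x = y
  · subst h
    by_cases hij : i = j
    · subst hij
      simp
    · simp [hij]
  · simp [h]

theorem big_star [DecidableEq X] (g g' : X → X) (hg : ∀ x y, x = g y ↔ y = g' x)
    (M : X → Matrix (Fin n) (Fin n) ℂ) :
    (big g M)ᴴ = big g' (fun x => (M (g' x))ᴴ) := by
  ext p q
  obtain ⟨y, j⟩ := p
  obtain ⟨x, i⟩ := q
  simp only [big, Matrix.conjTranspose_apply]
  by_cases h : x = g y
  · have h2 : y = g' x := (hg x y).1 h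
    rw [if_pos h, if_pos h2, ← h2]
  · have h2 : ¬ y = g' x := fun h3 => h ((hg x y).2 h3)
    rw [if_neg h, if_neg h2, star_zero]

theorem F_big [Fintype X] [DecidableEq X] (g : X → X) (M : X → Matrix (Fin n) (Fin n) ℂ) :
    F (big g M) = ∑ y, F (M y) := by
  unfold F
  rw [Finset.sum_comm, Fintype.sum_prod_type]
  refine Finset.sum_congr rfl fun y _ => ?_
  have h : ∀ j : Fin n, ∑ p : X × Fin n, Complex.normSq (big g M p (y, j))
      = ∑ i, Complex.normSq (M y i j) := by
    intro j
    rw [Fintype.sum_prod_type, Finset.sum_eq_single (g y)]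
    · simp [big]
    · intro z _ hz
      apply Finset.sum_eq_zero
      intro k _
      simp [big, hz]
    · intro hz
      exact absurd (Finset.mem_univ _) hz
  simp only [h]
  exact Finset.sum_comm

theorem F_diag [Fintype X] (T : Matrix (X × Fin n) (X × Fin n) ℂ) :
    ∑ y, F (fun i j => T (y, i) (y, j)) ≤ F T := by
  unfold F
  rw [Fintype.sum_prod_type]
  refine Finset.sum_le_sum fun y _ => Finset.sum_le_sum fun i _ => ?_
  rw [Fintype.sum_prod_type]
  exact Finset.single_le_sum (f := fun z => ∑ j, Complex.normSq (T (y, i) (z, j)))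
    (fun z _ => Finset.sum_nonneg fun j _ => Complex.normSq_nonneg _) (Finset.mem_univ y)

end big

section main

variable {W : Type} [Group W] (N : Subgroup W)

/-- the cocycle -/
noncomputable def co (w : W) (y : W ⧸ N) : N :=
  ⟨((w • y : W ⧸ N).out)⁻¹ * (w * y.out), by
    rw [← QuotientGroup.eq]
    have h1 : (((w • y : W ⧸ N).out : W) : W ⧸ N) = w • y := QuotientGroup.out_eq' _
    have h2 : ((w * y.out : W) : W ⧸ N) = w • y := by
      have h3 : ((w * y.out : W) : W ⧸ N) = w • ((y.out : W) : W ⧸ N) := rfl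
      rw [h3, QuotientGroup.out_eq']
    rw [h1, h2]⟩

theorem co_val (w : W) (y : W ⧸ N) :
    (co N w y : W) = ((w • y : W ⧸ N).out)⁻¹ * (w * y.out) := rfl

theorem co_mul (a b : W) (y : W ⧸ N) : co N (a * b) y = co N a (b • y) * co N b y := by
  apply Subtype.ext
  rw [Subgroup.coe_mul, co_val, co_val, co_val, mul_smul]
  group

theorem co_one (y : W ⧸ N) : co N 1 y = 1 := by
  apply Subtype.ext
  rw [co_val, one_smul, one_mul, inv_mul_cancel, Subgroup.coe_one]

theorem co_ne_one {a : W} (ha : a ≠ 1) (y : W ⧸ N) (hy : a • y = y) : co N a y ≠ 1 := by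
  intro h
  apply ha
  have h1 : (co N a y : W) = 1 := by rw [h, Subgroup.coe_one]
  rw [co_val, hy, inv_mul_eq_one] at h1
  have h2 : a * y.out = 1 * y.out := by rw [one_mul]; exact h1.symm
  exact mul_right_cancel h2

theorem F_neg_one {n : ℕ} : F (fun i j : Fin n => -(1 : Matrix (Fin n) (Fin n) ℂ) i j) = n := by
  unfold F
  have h : ∀ i : Fin n, ∑ j, Complex.normSq (-(1 : Matrix (Fin n) (Fin n) ℂ) i j) = 1 := by
    intro i
    rw [Finset.sum_eq_single i]
    · simp
    · intro j _ hj
      simp [Matrix.one_apply_ne (Ne.symm hj)]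
    · intro hz
      exact absurd (Finset.mem_univ _) hz
  rw [Finset.sum_congr rfl fun i _ => h i]
  simp

end main

end FIaux

open FIaux Finset Matrix in
open Pool.Agent.H21R2 (hsNorm) in
/-- **FI.** -/
theorem t_FI : S_FI := by
  intro W _ N _ _ hN A hA ε hε
  classical
  have : Fintype (W ⧸ N) := Fintype.ofFinite _
  obtain ⟨n, hn, φ, h1, h2, h3⟩ := hN
    ((A ×ˢ (Finset.univ : Finset (W ⧸ N))).image fun p => co N p.1 p.2)
    (Finset.mem_image.2 ⟨(1, ((1 : W) : W ⧸ N)),
      Finset.mem_product.2 ⟨hA, Finset.mem_univ _⟩, co_one N _⟩) ε hε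
  have hmem : ∀ a ∈ A, ∀ y : W ⧸ N,
      co N a y ∈ (A ×ˢ (Finset.univ : Finset (W ⧸ N))).image fun p => co N p.1 p.2 :=
    fun a ha y => Finset.mem_image.2 ⟨(a, y), Finset.mem_product.2 ⟨ha, Finset.mem_univ _⟩, rfl⟩
  set m := Fintype.card (W ⧸ N) with hm
  have hm1 : 0 < m := Fintype.card_pos_iff.2 ⟨((1 : W) : W ⧸ N)⟩
  let e : (W ⧸ N) × Fin n ≃ Fin (m * n) :=
    (Equiv.prodCongr (Fintype.equivFin (W ⧸ N)) (Equiv.refl (Fin n))).trans finProdFinEquiv
  let U : W → Matrix ((W ⧸ N) × Fin n) ((W ⧸ N) × Fin n) ℂ :=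
    fun w => big (fun y => w • y) (fun y => (φ (co N w y)).1)
  have hU : ∀ w, (U w)ᴴ * U w = 1 := by
    intro w
    show (big (fun y => w • y) (fun y => (φ (co N w y)).1))ᴴ *
      big (fun y => w • y) (fun y => (φ (co N w y)).1) = 1
    rw [big_star (fun y : W ⧸ N => w • y) (fun y => w⁻¹ • y)
      (fun x y => ⟨fun h => by rw [h, inv_smul_smul], fun h => by rw [h, smul_inv_smul]⟩), big_mul,
      ← big_one]
    congr 1
    · funext y
      rw [inv_smul_smul]
    · funext y
      rw [inv_smul_smul]
      exact (Matrix.mem_unitaryGroup_iff'.1 (φ (co N w y)).2)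
  have hU2 : ∀ w, Matrix.reindex e e (U w) ∈ unitaryGroup (Fin (m * n)) ℂ := by
    intro w
    rw [Matrix.mem_unitaryGroup_iff', Matrix.star_eq_conjTranspose]
    rw [Matrix.reindex_apply, Matrix.conjTranspose_submatrix, Matrix.submatrix_mul_equiv, hU,
      Matrix.submatrix_one_equiv]
  have hU1 : U 1 = 1 := by
    show big (fun y : W ⧸ N => (1 : W) • y) (fun y => (φ (co N 1 y)).1) = 1
    rw [← big_one]
    congr 1
    · funext y
      rw [one_smul]
    · funext y
      rw [co_one, h1]
      rfl
  have hmn : (0 : ℝ) < ((m * n : ℕ) : ℝ) := by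
    have : 0 < m * n := Nat.mul_pos hm1 hn
    exact_mod_cast this
  have hn0 : (0 : ℝ) < (n : ℝ) := by exact_mod_cast hn
  refine ⟨m * n, Nat.mul_pos hm1 hn, fun w => ⟨Matrix.reindex e e (U w), hU2 w⟩, ?_, ?_, ?_⟩
  · apply Subtype.ext
    show Matrix.reindex e e (U 1) = 1
    rw [hU1, Matrix.reindex_apply, Matrix.submatrix_one_equiv]
  · intro a ha b hb hab
    show hsNorm (Matrix.reindex e e (U (a * b)) -
      Matrix.reindex e e (U a) * Matrix.reindex e e (U b)) < ε
    have hD : Matrix.reindex e e (U (a * b)) -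
        Matrix.reindex e e (U a) * Matrix.reindex e e (U b)
        = Matrix.reindex e e (big (fun y => (a * b) • y) (fun y => (φ (co N a (b • y) * co N b y)).1
          - (φ (co N a (b • y))).1 * (φ (co N b y)).1)) := by
      have h4 : U a * U b = big (fun y => (a * b) • y)
          (fun y => (φ (co N a (b • y))).1 * (φ (co N b y)).1) := by
        show big (fun y => a • y) (fun y => (φ (co N a y)).1) *
          big (fun y => b • y) (fun y => (φ (co N b y)).1) = _
        rw [big_mul]
        congr 1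
        funext y
        rw [mul_smul]
      rw [Matrix.reindex_apply, Matrix.reindex_apply, Matrix.reindex_apply, Matrix.reindex_apply,
        Matrix.submatrix_mul_equiv, h4]
      ext p q
      simp only [Matrix.sub_apply, Matrix.submatrix_apply, U, big, co_mul]
      split_ifs
      · rfl
      · simp
    rw [hD, hsNorm_eq, F_reindex, F_big, Real.sqrt_lt' hε, div_lt_iff₀ hmn]
    have h5 : ∀ y : W ⧸ N, F ((φ (co N a (b • y) * co N b y)).1
          - (φ (co N a (b • y))).1 * (φ (co N b y)).1) < ε ^ 2 * n := by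
      intro y
      have h6 := h2 (co N a (b • y)) (hmem a ha _) (co N b y) (hmem b hb _)
        (by rw [← co_mul]; exact hmem _ hab _)
      rw [hsNorm_eq, Real.sqrt_lt' hε, div_lt_iff₀ hn0] at h6
      exact h6
    calc ∑ y : W ⧸ N, F ((φ (co N a (b • y) * co N b y)).1
          - (φ (co N a (b • y))).1 * (φ (co N b y)).1)
        < ∑ y : W ⧸ N, ε ^ 2 * n :=
          Finset.sum_lt_sum_of_nonempty ⟨((1 : W) : W ⧸ N), Finset.mem_univ _⟩ fun y _ => h5 y
      _ = ε ^ 2 * ((m * n : ℕ) : ℝ) := by
          rw [Finset.sum_const, Finset.card_univ, nsmul_eq_mul]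
          push_cast
          ring
  · intro a ha ha1
    show 1 ≤ hsNorm (Matrix.reindex e e (U a) - 1)
    have hD : Matrix.reindex e e (U a) - 1 = Matrix.reindex e e (U a - 1) := by
      rw [Matrix.reindex_apply, Matrix.reindex_apply, Matrix.submatrix_sub]
      congr 1
      exact (Matrix.submatrix_one_equiv e.symm).symm
    rw [hD, hsNorm_eq, F_reindex, Real.le_sqrt' one_pos, one_pow, le_div_iff₀ hmn, one_mul]
    refine le_trans ?_ (F_diag (U a - 1))
    have h5 : ∀ y : W ⧸ N, (n : ℝ) ≤ F (fun i j => (U a - 1) (y, i) (y, j)) := by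
      intro y
      by_cases hy : a • y = y
      · have h6 := h3 (co N a y) (hmem a ha y) (co_ne_one N ha1 y hy)
        rw [hsNorm_eq, Real.le_sqrt' one_pos, one_pow, le_div_iff₀ hn0, one_mul] at h6
        refine le_of_le_of_eq h6 ?_
        congr 1
        ext i j
        have h7 : (1 : Matrix ((W ⧸ N) × Fin n) ((W ⧸ N) × Fin n) ℂ) (y, i) (y, j)
            = (1 : Matrix (Fin n) (Fin n) ℂ) i j := by
          by_cases hij : i = j
          · subst hij
            simp
          · simp [hij]
        rw [Matrix.sub_apply, Matrix.sub_apply, h7]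
        simp only [U, big]
        rw [if_pos hy.symm]
      · refine le_of_eq ?_
        rw [← F_neg_one]
        congr 1
        ext i j
        have h7 : (1 : Matrix ((W ⧸ N) × Fin n) ((W ⧸ N) × Fin n) ℂ) (y, i) (y, j)
            = (1 : Matrix (Fin n) (Fin n) ℂ) i j := by
          by_cases hij : i = j
          · subst hij
            simp
          · simp [hij]
        rw [Matrix.sub_apply, h7]
        simp only [U, big]
        rw [if_neg (fun h => hy h.symm), zero_sub]
    calc ((m * n : ℕ) : ℝ) = ∑ y : W ⧸ N, (n : ℝ) := by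
          rw [Finset.sum_const, Finset.card_univ, nsmul_eq_mul]
          push_cast
          rfl
      _ ≤ _ := Finset.sum_le_sum fun y _ => h5 y

end Pool.Agent.H365.TF
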